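import Pool.Agent.N404.KL.Stm

set_option autoImplicit false

/-!
# Project KC (MP_c81d26_co): signings of almost all matrices with given row and column contents.
Definitions and statements.

`S` is the finite set of the classes of the nonzero entries, `val s` the value of an entry of class
`s`. `X s` is the set of the slots of class `s`. The row slot `p : X s` belongs to the row `a s p`,
the column slot `p : X s` to the column `b s p`. A configuration `π : ∀ s, Equiv.Perm (X s)` joins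
the row slot `p` to the column slot `π s p`: it has an entry of class `s` in the row `a s p` and the
column `b s (π s p)`.
-/

namespace Pool.Agent.L0h98.KC

open Finset Classical
open Pool.Agent.N404.LF (cnt)
open Pool.Agent.N404.KL (sg tent)

/-- Configurations: a permutation for each class. -/
abbrev Cf {S : Type} (X : S → Type) : Type := ∀ s, Equiv.Perm (X s)

section defs

variable {S R V : Type} {X : S → Type}

/-- The number of the differences of two configurations. -/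
noncomputable def hdc [Fintype S] [∀ s, Fintype (X s)] (π π' : Cf X) : ℕ :=
  (univ.filter fun q : Σ s, X s => π q.1 q.2 ≠ π' q.1 q.2).card

/-- The sum of the row `r` under the word `z`. -/
noncomputable def rs [Fintype S] [∀ s, Fintype (X s)] (val : S → ℝ) (a : ∀ s, X s → R)
    (z : ∀ s, X s → Bool) (r : R) : ℝ :=
  ∑ q : {q : Σ s, X s // a q.1 q.2 = r}, val q.1.1 * sg (z q.1.1 q.1.2)

/-- The total weight of the row `r`. -/
noncomputable def tr [Fintype S] [∀ s, Fintype (X s)] (val : S → ℝ) (a : ∀ s, X s → R)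
    (r : R) : ℝ :=
  ∑ e : {q : Σ s, X s // a q.1 q.2 = r} → Bool, tent 300 (∑ q, val q.1.1 * sg (e q))

/-- Different slots never give the same position. -/
def Simple (a : ∀ s, X s → R) (b : ∀ s, X s → V) (π : Cf X) : Prop :=
  ∀ q q' : Σ s, X s, a q.1 q.2 = a q'.1 q'.2 → b q.1 (π q.1 q.2) = b q'.1 (π q'.1 q'.2) → q = q'

/-- `A` is the array of the classes of the entries of the configuration `π`. -/
def Match (a : ∀ s, X s → R) (b : ∀ s, X s → V) (π : Cf X) (A : R → V → Option S) : Prop :=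
  ∀ i v s, A i v = some s ↔ ∃ p : X s, a s p = i ∧ b s (π s p) = v

/-- The arrays with `r i s` entries of class `s` in the row `i` and `c v s` in the column `v`. -/
noncomputable def Arr [Fintype S] [Fintype R] [Fintype V] (r : R → S → ℕ) (c : V → S → ℕ) :
    Finset (R → V → Option S) :=
  univ.filter fun A => (∀ i s, (univ.filter fun v => A i v = some s).card = r i s) ∧
    ∀ v s, (univ.filter fun i => A i v = some s).card = c v s

end defs

/-! ### leaves -/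

/-- CONC: concentration. -/
def S_CONC : Prop := ∀ (S : Type) [Fintype S] [DecidableEq S] (X : S → Type)
  [∀ s, Fintype (X s)] [∀ s, DecidableEq (X s)] (A : Finset (Cf X)) (t : ℝ), 0 ≤ t →
  (A.card : ℝ) * ((univ.filter fun π : Cf X => ∀ π' ∈ A, t ≤ (hdc π π' : ℝ)).card : ℝ) ≤
    (∏ s, ((Fintype.card (X s)).factorial : ℝ)) ^ 2 *
      Real.exp (-(t ^ 2 / (18 * (Fintype.card (Σ s, X s) : ℝ))))

/-- WUP: upper bound for sums over configurations by sums over words. -/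
def S_WUP : Prop := ∀ (S T : Type) [Fintype S] [DecidableEq S] [Fintype T] (X : S → Type)
  [∀ s, Fintype (X s)] [∀ s, DecidableEq (X s)] (f : ∀ s, X s → T) (Ψ : (∀ s, X s → T) → ℝ),
  (∀ w, 0 ≤ Ψ w) →
  ∑ π : Cf X, Ψ (fun s p => f s (π s p)) ≤
    (∏ s, (((Fintype.card (X s)).factorial : ℝ) *
      (3 * ((Fintype.card (X s) : ℝ) + 1)) ^ Fintype.card T)) *
    ∑ w : ∀ s, X s → T, (∏ s, ∏ p, ((cnt (f s) (w s p) : ℝ) / Fintype.card (X s))) * Ψ w

/-- WLO: lower bound for sums over configurations by sums over balanced words. -/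
def S_WLO : Prop := ∀ (S : Type) [Fintype S] [DecidableEq S] (M : S → ℕ)
  (f : ∀ s, Fin (M s) × Bool → Bool) (Ψ : (∀ s, Fin (M s) × Bool → Bool) → ℝ), (∀ w, 0 ≤ Ψ w) →
  (∀ s, cnt (f s) true = M s) →
  (∏ s, ((2 * M s).factorial : ℝ)) *
      ∑ w ∈ univ.filter (fun w : ∀ s, Fin (M s) × Bool → Bool => ∀ s, cnt (w s) true = M s), Ψ w ≤
    (∏ s, (4 : ℝ) ^ M s) *
      ∑ π : Cf (fun s => Fin (M s) × Bool), Ψ (fun s p => f s (π s p))

/-- BLO: balanced words against all words. -/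
def S_BLO : Prop := ∀ (S : Type) [Fintype S] [DecidableEq S] (M : S → ℕ)
  (F : (∀ s, Fin (M s) → Bool) → ℝ), (∀ u, 0 ≤ F u) → (∀ u, F (fun s l => !(u s l)) = F u) →
  (∑ u, F u) ^ 2 ≤ (∏ s, ((M s : ℝ) + 1)) *
    ∑ w ∈ univ.filter (fun w : ∀ s, Fin (M s) × Bool → Bool => ∀ s, cnt (w s) true = M s),
      F (fun s l => w s (l, false)) * F (fun s l => w s (l, true))

/-- FUB: words and rows. -/
def S_FUB : Prop := ∀ (Q R T : Type) [Fintype Q] [Fintype R] [Fintype T] (ρ : Q → R)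
  (W : ∀ r, ({q : Q // ρ q = r} → T) → ℝ),
  ∑ w : Q → T, ∏ r, W r (fun q => w q.1) = ∏ r, ∑ u : {q : Q // ρ q = r} → T, W r u

/-- HTY: the sum over the signings, weighted by the overlaps on the types. -/
def S_HTY : Prop := ∀ (V T : Type) [Fintype V] [Fintype T] (ty : V → T) (x : V → Bool),
  ∑ y : V → Bool, Real.exp (∑ t, (∑ v ∈ univ.filter (fun v => ty v = t), sg (x v) * sg (y v)) ^ 2 /
      (2 * (cnt ty t : ℝ))) ≤
    ((Fintype.card V : ℝ) + 1) ^ Fintype.card T * 2 ^ Fintype.card V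

/-- BTY: the number of the signings that are balanced on every type. -/
def S_BTY : Prop := ∀ (V T : Type) [Fintype V] [Fintype T] (ty : V → T),
  (∀ t, Even (cnt ty t)) →
  (2 : ℝ) ^ Fintype.card V ≤ ((Fintype.card V : ℝ) + 1) ^ Fintype.card T *
    ((univ.filter fun x : V → Bool =>
      ∀ t, 2 * (univ.filter fun v => ty v = t ∧ x v = true).card = cnt ty t).card : ℝ)

/-- JEN: Jensen's inequality for the overlaps. -/
def S_JEN : Prop := ∀ (S V T : Type) [Fintype S] [Fintype V] [Fintype T] (X : S → Type)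
  [∀ s, Fintype (X s)] (b : ∀ s, X s → V) (ty : V → T) (c : T → S → ℕ) (val : S → ℝ) (z : V → ℝ),
  (∀ v s, cnt (b s) v = c (ty v) s) → (∀ v, ∑ s, (c (ty v) s : ℝ) * val s ^ 2 ≤ 1) →
  ∑ s, val s ^ 2 * ((∑ p, z (b s p)) ^ 2 / Fintype.card (X s)) ≤
    ∑ t, (∑ v ∈ univ.filter (fun v => ty v = t), z v) ^ 2 / (cnt ty t : ℝ)

/-- UPR: the second moment for a pair of balanced words. -/
def S_UPR : Prop := ∀ (S R : Type) [Fintype S] [DecidableEq S] [Fintype R] (X : S → Type)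
  [∀ s, Fintype (X s)] [∀ s, DecidableEq (X s)] (a : ∀ s, X s → R) (val : S → ℝ)
  (x y : ∀ s, X s → Bool), (∀ s, |val s| ≤ 1) →
  (∀ s, 2 * cnt (x s) true = Fintype.card (X s)) → (∀ s, 2 * cnt (y s) true = Fintype.card (X s)) →
  ∑ π : Cf X, ∏ r, (tent 300 (rs val a (fun s p => x s (π s p)) r) *
      tent 300 (rs val a (fun s p => y s (π s p)) r)) ≤
    (∏ s, (((Fintype.card (X s)).factorial : ℝ) * (3 * ((Fintype.card (X s) : ℝ) + 1)) ^ 4 *
      (1 / 4) ^ Fintype.card (X s))) * (∏ r, tr val a r) ^ 2 *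
    Real.exp (1 / 2 * ∑ s, val s ^ 2 * ((∑ p, sg (x s p) * sg (y s p)) ^ 2 / Fintype.card (X s)))

/-- LOR: the first moment for a balanced word. -/
def S_LOR : Prop := ∀ (S I : Type) [Fintype S] [DecidableEq S] [Fintype I] (M : S → ℕ)
  (al : ∀ s, Fin (M s) → I) (val : S → ℝ) (x : ∀ s, Fin (M s) × Bool → Bool),
  (∀ s, cnt (x s) true = M s) →
  (∏ s, ((2 * M s).factorial : ℝ)) * ∏ r, tr val (fun s (p : Fin (M s) × Bool) => (al s p.1, p.2)) r ≤
    (∏ s, ((4 : ℝ) ^ M s * ((M s : ℝ) + 1))) *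
      ∑ π : Cf (fun s => Fin (M s) × Bool), ∏ r, tent 300
        (rs val (fun s (p : Fin (M s) × Bool) => (al s p.1, p.2)) (fun s p => x s (π s p)) r)

/-- SPAR: small sets of rows and columns span few entries. -/
def S_SPAR : Prop := ∀ (S : Type) [Fintype S] [DecidableEq S] (Δ : ℕ) (δ : ℝ), 0 < δ → ∃ C : ℕ,
  ∀ (R V : Type) [Fintype R] [Fintype V] (X : S → Type)
  [∀ s, Fintype (X s)] [∀ s, DecidableEq (X s)] (a : ∀ s, X s → R) (b : ∀ s, X s → V),
  (∀ i, ∑ s, cnt (a s) i ≤ Δ) → (∀ v, ∑ s, cnt (b s) v ≤ Δ) →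
  (∀ s, δ * (Fintype.card (Σ s, X s) : ℝ) ≤ Fintype.card (X s)) →
  ∀ m : ℕ, C * m ≤ Fintype.card (Σ s, X s) →
    Fintype.card (Σ s, X s) * (univ.filter fun π : Cf X => ∃ (A : Finset R) (B : Finset V),
      A.Nonempty ∧ A.card + B.card ≤ m ∧ 6 * (A.card + B.card) ≤ 5 *
        (univ.filter fun q : Σ s, X s => a q.1 q.2 ∈ A ∧ b q.1 (π q.1 q.2) ∈ B).card).card ≤
    C * m * ∏ s, (Fintype.card (X s)).factorial

/-- SIMP: a positive proportion of the configurations is simple. -/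
def S_SIMP : Prop := ∀ (S : Type) [Fintype S] [DecidableEq S] (Δ : ℕ) (δ : ℝ), 0 < δ → ∃ C : ℕ,
  ∀ (R V : Type) [Fintype R] [Fintype V] (X : S → Type)
  [∀ s, Fintype (X s)] [∀ s, DecidableEq (X s)] (a : ∀ s, X s → R) (b : ∀ s, X s → V),
  (∀ i, ∑ s, cnt (a s) i ≤ Δ) → (∀ v, ∑ s, cnt (b s) v ≤ Δ) →
  (∀ s, δ * (Fintype.card (Σ s, X s) : ℝ) ≤ Fintype.card (X s)) →
  C ≤ Fintype.card (Σ s, X s) →
  ∏ s, (Fintype.card (X s)).factorial ≤ C * (univ.filter fun π : Cf X => Simple a b π).card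

/-- CNF: each array with the given contents comes from the same number of configurations. -/
def S_CNF : Prop := ∀ (S R V : Type) [Fintype S] [DecidableEq S] [Fintype R] [Fintype V]
  (X : S → Type) [∀ s, Fintype (X s)] [∀ s, DecidableEq (X s)] (a : ∀ s, X s → R)
  (b : ∀ s, X s → V), ∃ F : ℕ, 0 < F ∧
  (∀ A ∈ Arr (fun i s => cnt (a s) i) (fun v s => cnt (b s) v),
    (univ.filter fun π : Cf X => Simple a b π ∧ Match a b π A).card = F) ∧
  (∀ π : Cf X, Simple a b π →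
    ∃ A ∈ Arr (fun i s => cnt (a s) i) (fun v s => cnt (b s) v), Match a b π A)

/-- DIC: Dickson's lemma for parities. -/
def S_DIC : Prop := ∀ (J S : Type) [Fintype J] [Fintype S] (L : J → S → ℤ), ∃ K : ℕ,
  ∀ m : J → ℕ, (∀ s, ∑ j, (m j : ℤ) * L j s = 0) →
  ∃ m' : J → ℕ, (∀ j, m' j ≤ m j) ∧ (∀ j, m' j ≤ K) ∧ (∀ s, ∑ j, (m' j : ℤ) * L j s = 0) ∧
    ∀ j, Even (m j - m' j)

/-- EMB: slots, such that almost all rows come in pairs and almost all columns are in types of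
even size. -/
def S_EMB : Prop := ∀ (S : Type) [Fintype S] [DecidableEq S] (Δ : ℕ), ∃ K : ℕ,
  ∀ (R V : Type) [Fintype R] [Fintype V] (r : R → S → ℕ) (c : V → S → ℕ),
  (∀ i, ∑ s, r i s ≤ Δ) → (∀ v, ∑ s, c v s ≤ Δ) → (∀ s, ∑ i, r i s = ∑ v, c v s) →
  ∃ (M k : S → ℕ) (n : ℕ) (al : ∀ s, Fin (M s) → Fin n) (e : Fin n × Bool → R) (V' : Finset V)
    (a : ∀ s, (Fin (M s) × Bool) ⊕ Fin (k s) → R) (b : ∀ s, (Fin (M s) × Bool) ⊕ Fin (k s) → V),
    (∀ s, k s ≤ K) ∧ Function.Injective e ∧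
    (∀ s l β, a s (Sum.inl (l, β)) = e (al s l, β)) ∧ (∀ s j p, a s (Sum.inr j) ≠ e p) ∧
    (∀ s q, b s (Sum.inl q) ∈ V') ∧ (∀ s j, b s (Sum.inr j) ∉ V') ∧
    (∀ i s, cnt (a s) i = r i s) ∧ (∀ v s, cnt (b s) v = c v s) ∧
    (∀ v ∈ V', ∃ s, c v s ≠ 0) ∧ (∀ u : S → ℕ, Even (V'.filter fun v => c v = u).card)

/-- REPC: repair, for a matrix given by its positions. -/
def S_REPC : Prop := ∀ (R V E : Type) [Fintype R] [Fintype V] [Fintype E] (ρ : E → R) (κ : E → V)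
  (w : E → ℝ) (x : V → ℝ) (C₀ : ℝ) (Δ m t : ℕ) (B : Finset R),
  (∀ e e', ρ e = ρ e' → κ e = κ e' → e = e') → (∀ e, |w e| ≤ 1) → (∀ r, cnt ρ r ≤ Δ) →
  (∀ v, x v = 1 ∨ x v = -1) → 0 ≤ C₀ → B.card ≤ t → 2 * t * (1 + Δ) ≤ m →
  (∀ (A : Finset R) (T : Finset V), A.Nonempty → A.card + T.card ≤ m →
    5 * (univ.filter fun e => ρ e ∈ A ∧ κ e ∈ T).card < 6 * (A.card + T.card)) →
  (∀ r, r ∉ B → |∑ e ∈ univ.filter (fun e => ρ e = r), w e * x (κ e)| ≤ C₀) →
  ∃ y : V → ℝ, (∀ v, y v = 1 ∨ y v = -1) ∧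
    ∀ r, |∑ e ∈ univ.filter (fun e => ρ e = r), w e * y (κ e)| ≤ C₀ + 4

/-! ### assembly -/

/-- MOMC: many configurations have a good signing. -/
def S_MOMC : Prop := ∀ (S T I V : Type) [Fintype S] [DecidableEq S] [Fintype T] [Fintype I]
  [Fintype V] (M : S → ℕ) (val : S → ℝ) (al : ∀ s, Fin (M s) → I)
  (b : ∀ s, Fin (M s) × Bool → V) (ty : V → T) (c : T → S → ℕ),
  (∀ v s, cnt (b s) v = c (ty v) s) → (∀ v, ∃ s, c (ty v) s ≠ 0) →
  (∀ v, ∑ s, (c (ty v) s : ℝ) * val s ^ 2 ≤ 1) → (∀ s, |val s| ≤ 1) → (∀ t, Even (cnt ty t)) →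
  (∏ s, ((2 * M s).factorial : ℝ)) ≤
    (3 * (((∑ s, 2 * M s : ℕ) : ℝ) + 1)) ^ (6 * Fintype.card S + 3 * Fintype.card T) *
    ((univ.filter fun π : Cf (fun s => Fin (M s) × Bool) => ∃ x : V → Bool, ∀ r : I × Bool,
      |rs val (fun s (p : Fin (M s) × Bool) => (al s p.1, p.2))
        (fun s p => x (b s (π s p))) r| ≤ 300).card : ℝ)

/-- The value of the array `A` under the signing `y` in the row `i`. -/
noncomputable def aval {S R V : Type} [Fintype V] (val : S → ℝ) (A : R → V → Option S) (y : V → ℝ)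
    (i : R) : ℝ := ∑ v, (A i v).elim 0 val * y v

/-- MAINC: almost all arrays with given contents have a good signing. -/
def S_MAINC : Prop := ∀ (S : Type) [Fintype S] [DecidableEq S] (Δ : ℕ) (δ : ℝ), 0 < δ →
  ∃ N₀ : ℕ, ∀ (R V : Type) [Fintype R] [Fintype V] (val : S → ℝ) (r : R → S → ℕ) (c : V → S → ℕ),
  (∀ i, ∑ s, r i s ≤ Δ) → (∀ v, ∑ s, c v s ≤ Δ) → (∀ v, ∑ s, (c v s : ℝ) * val s ^ 2 ≤ 1) →
  (∀ s, δ * ((∑ s', ∑ i, r i s' : ℕ) : ℝ) ≤ (∑ i, r i s : ℕ)) → N₀ ≤ ∑ s, ∑ i, r i s →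
  ((∑ s, ∑ i, r i s : ℕ) : ℝ) ^ (1 / 4 : ℝ) * (((Arr r c).filter fun A =>
    ¬ ∃ y : V → ℝ, (∀ v, y v = 1 ∨ y v = -1) ∧ ∀ i, |aval val A y i| ≤ 304).card : ℝ) ≤
    ((Arr r c).card : ℝ)

end Pool.Agent.L0h98.KC
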