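import Pool.Agent.L0h98.KC.Def

set_option autoImplicit false

/-! Project KC: the two parts of SIMP. -/

namespace Pool.Agent.L0h98.KC

open Finset Classical
open Pool.Agent.N404.LF (cnt)

/-- The number of the ordered pairs of different slots with the same position. -/
noncomputable def dbl {S R V : Type} {X : S → Type} [Fintype S] [∀ s, Fintype (X s)]
    (a : ∀ s, X s → R) (b : ∀ s, X s → V) (π : Cf X) : ℕ :=
  (univ.filter fun z : (Σ s, X s) × (Σ s, X s) => z.1 ≠ z.2 ∧ a z.1.1 z.1.2 = a z.2.1 z.2.2 ∧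
    b z.1.1 (π z.1.1 z.1.2) = b z.2.1 (π z.2.1 z.2.2)).card

/-- SIMP1: the expected number of the doubles is bounded. (SIMP2 is `t_SIMP (h : S_SIMP1) : S_SIMP`.) -/
def S_SIMP1 : Prop := ∀ (S : Type) [Fintype S] [DecidableEq S] (Δ : ℕ) (δ : ℝ), 0 < δ →
  ∃ K C : ℕ, ∀ (R V : Type) [Fintype R] [Fintype V] (X : S → Type)
  [∀ s, Fintype (X s)] [∀ s, DecidableEq (X s)] (a : ∀ s, X s → R) (b : ∀ s, X s → V),
  (∀ i, ∑ s, cnt (a s) i ≤ Δ) → (∀ v, ∑ s, cnt (b s) v ≤ Δ) →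
  (∀ s, δ * (Fintype.card (Σ s, X s) : ℝ) ≤ Fintype.card (X s)) →
  C ≤ Fintype.card (Σ s, X s) →
  ∑ π : Cf X, dbl a b π ≤ K * ∏ s, (Fintype.card (X s)).factorial

end Pool.Agent.L0h98.KC
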