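import Pool.Agent.L0h98.KC.Main3
import Pool.Agent.L0h37.KC.WUP
import Pool.Agent.L0h37.KC.WLO
import Pool.Agent.L0h37.KC.LOR
import Pool.Agent.L0h37.KC.UPR
import Pool.Agent.L0h72.KC.CONC
import Pool.Agent.L0h72.KC.SPAR
import Pool.Agent.L0h72.KC.CNF
import Pool.Agent.L0h64.KC.SIMP
import Pool.Agent.L0h28.KC.FUB
import Pool.Agent.L0h28.KC.JEN
import Pool.Agent.L0h28.KC.BLO
import Pool.Agent.L0h28.KC.HTY
import Pool.Agent.L0h28.KC.BTY
import Pool.Agent.L0h9.KC.EMB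
import Pool.Agent.L0h88.KC.DIC
import Pool.Agent.L0h88.KC.REPC
import Pool.Agent.N404.KL.Rat2
import Pool.Agent.N438.LF_EV
import Pool.Agent.N401.KL_FOUR
import Pool.Agent.N78.KL_DER
import Pool.Agent.N896.KL_REP
import Pool.Agent.N545.KL_REFL
import Pool.Agent.N495.KL_HOEF
import Pool.Agent.N459.KL_ESS

set_option autoImplicit false

/-! Project KC: the final statements. -/

namespace Pool.Agent.L0h98.KC

open Finset Classical
open Pool.Agent.N404.LF (cnt)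
open Pool.Agent.N404.KL (sg tent)

theorem rat : Pool.Agent.N404.KL.S_RAT :=
  Pool.Agent.N404.KL.proof_RAT Pool.Agent.N401.KLFOUR.main Pool.Agent.N78.KLDER.main
    Pool.Agent.N459.KL_ESS.main Pool.Agent.N545.KL.REFL.main

theorem emb : S_EMB := Pool.Agent.L0h9.KC.t_EMB Pool.Agent.L0h88.KC.t_DIC

theorem momc : S_MOMC :=
  t_MOMC (Pool.Agent.L0h37.KC.t_UPR Pool.Agent.L0h37.KC.t_WUP Pool.Agent.L0h28.KC.t_FUB rat)
    (Pool.Agent.L0h37.KC.t_LOR Pool.Agent.L0h37.KC.t_WLO Pool.Agent.L0h28.KC.t_BLO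
      Pool.Agent.L0h28.KC.t_FUB) Pool.Agent.L0h28.KC.t_HTY Pool.Agent.L0h28.KC.t_BTY
    Pool.Agent.L0h28.KC.t_JEN rat

theorem mainc : S_MAINC :=
  t_MAINC momc Pool.Agent.L0h72.KC.t_CONC Pool.Agent.L0h72.KC.t_SPAR emb
    (Pool.Agent.L0h88.KC.t_REPC Pool.Agent.N896.KLREP.main) Pool.Agent.L0h64.KC.t_SIMP
    Pool.Agent.L0h72.KC.t_CNF Pool.Agent.N438.LFEV.main

/-- there are arrays with the given contents -/
theorem exists_arr (S : Type) [Fintype S] [DecidableEq S] (Δ : ℕ) (δ : ℝ) (hδ : 0 < δ) :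
    ∃ N₀ : ℕ, ∀ (R V : Type) [Fintype R] [Fintype V] (r : R → S → ℕ) (c : V → S → ℕ),
    (∀ i, ∑ s, r i s ≤ Δ) → (∀ v, ∑ s, c v s ≤ Δ) → (∀ s, ∑ i, r i s = ∑ v, c v s) →
    (∀ s, δ * ((∑ s', ∑ i, r i s' : ℕ) : ℝ) ≤ (∑ i, r i s : ℕ)) → N₀ ≤ ∑ s, ∑ i, r i s →
    (Arr r c).Nonempty := by
  obtain ⟨K, hK⟩ := emb S Δ
  obtain ⟨C, hC⟩ := Pool.Agent.L0h64.KC.t_SIMP S Δ δ hδ
  refine ⟨C, fun R V _ _ r c hr hc hrc hcls hN => ?_⟩
  obtain ⟨M, k, n, al, e, V', a, b, -, -, -, -, -, -, ha, hb, -, -⟩ := hK R V r c hr hc hrc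
  have hXr : ∀ s, Fintype.card ((Fin (M s) × Bool) ⊕ Fin (k s)) = ∑ i, r i s := by
    intro s
    rw [← sum_cnt (a s)]
    exact sum_congr rfl fun i _ => ha i s
  have hSig : Fintype.card (Σ s, (Fin (M s) × Bool) ⊕ Fin (k s)) = ∑ s, ∑ i, r i s := by
    rw [Fintype.card_sigma]
    exact sum_congr rfl fun s _ => hXr s
  have hsimp := hC R V (fun s => (Fin (M s) × Bool) ⊕ Fin (k s)) a b
    (fun i => by rw [sum_congr rfl fun s _ => ha i s]; exact hr i)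
    (fun v => by rw [sum_congr rfl fun s _ => hb v s]; exact hc v) (by
      intro s
      rw [hSig, hXr]
      exact hcls s) (by rw [hSig]; exact hN)
  have hpos : 0 < (univ.filter fun π : Cf (fun s => (Fin (M s) × Bool) ⊕ Fin (k s)) =>
      Simple a b π).card := by
    by_contra hcon
    have h0 : (univ.filter fun π : Cf (fun s => (Fin (M s) × Bool) ⊕ Fin (k s)) =>
      Simple a b π).card = 0 := by omega
    rw [h0, mul_zero] at hsimp
    have : 0 < ∏ s, (Fintype.card ((Fin (M s) × Bool) ⊕ Fin (k s))).factorial :=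
      prod_pos fun s _ => Nat.factorial_pos _
    omega
  obtain ⟨π, hπ⟩ := card_pos.1 hpos
  obtain ⟨F, -, -, hF2⟩ := Pool.Agent.L0h72.KC.t_CNF S R V
    (fun s => (Fin (M s) × Bool) ⊕ Fin (k s)) a b
  obtain ⟨A, hA, -⟩ := hF2 π (mfi.1 hπ).2
  have har : (Arr (fun i s => cnt (a s) i) (fun v s => cnt (b s) v)) = Arr r c := by
    congr 1
    · funext i s; exact ha i s
    · funext v s; exact hb v s
  rw [har] at hA
  exact ⟨A, hA⟩

end Pool.Agent.L0h98.KC
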