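import Pool.Agent.L0h98.KC.Mom
import Pool.Agent.N404.LF.Main

set_option autoImplicit false

/-! Project KC: almost all configurations have a good signing, preparations. -/

namespace Pool.Agent.L0h98.KC

open Finset Classical
open Pool.Agent.N404.LF (cnt)
open Pool.Agent.N404.KL (sg tent)

/-- The configuration has a signing of value at most `C`. -/
def GoodC {S R V : Type} [Fintype S] {X : S → Type} [∀ s, Fintype (X s)] (val : S → ℝ)
    (a : ∀ s, X s → R) (b : ∀ s, X s → V) (C : ℝ) (π : Cf X) : Prop :=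
  ∃ y : V → ℝ, (∀ v, y v = 1 ∨ y v = -1) ∧ ∀ i,
    |∑ q ∈ univ.filter (fun q : Σ s, X s => a q.1 q.2 = i), val q.1 * y (b q.1 (π q.1 q.2))| ≤ C

theorem cnt_sigma {S R : Type} [Fintype S] {X : S → Type} [∀ s, Fintype (X s)]
    (a : ∀ s, X s → R) (i : R) :
    cnt (fun q : Σ s, X s => a q.1 q.2) i = ∑ s, cnt (a s) i := by
  unfold cnt
  rw [card_filter, Fintype.sum_sigma]
  refine sum_congr rfl fun s _ => ?_
  rw [card_filter]

theorem cnt_sum {P P' A : Type} [Fintype P] [Fintype P'] (f : P ⊕ P' → A) (x : A) :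
    cnt f x = cnt (fun p => f (Sum.inl p)) x + cnt (fun p => f (Sum.inr p)) x := by
  unfold cnt
  rw [card_filter, Fintype.sum_sum_type, card_filter, card_filter]

theorem rs_eq {S R : Type} [Fintype S] {X : S → Type} [∀ s, Fintype (X s)] (val : S → ℝ)
    (a : ∀ s, X s → R) (z : ∀ s, X s → Bool) (r : R)
    [DecidablePred fun q : Σ s, X s => a q.1 q.2 = r] :
    rs val a z r = ∑ q ∈ univ.filter (fun q : Σ s, X s => a q.1 q.2 = r),
      val q.1 * sg (z q.1 q.2) := by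
  unfold rs
  refine Eq.symm ?_
  refine Finset.sum_subtype (p := fun q : Σ s, X s => a q.1 q.2 = r)
    (univ.filter fun q : Σ s, X s => a q.1 q.2 = r)
    (fun q => by simp) (fun q : Σ s, X s => val q.1 * sg (z q.1 q.2))

section
variable {S R V : Type} [Fintype S] [DecidableEq S] {M k : S → ℕ}

/-- the extended configuration -/
def extc (π : Cf (fun s => Fin (M s) × Bool)) : Cf (fun s => (Fin (M s) × Bool) ⊕ Fin (k s)) :=
  fun s => Equiv.sumCongr (π s) (Equiv.refl _)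

omit [Fintype S] [DecidableEq S] in
theorem extc_inj : Function.Injective (extc (M := M) (k := k)) := by
  intro π π' h
  funext s
  ext1 p
  have h1 := congrArg (fun e : Cf (fun s => (Fin (M s) × Bool) ⊕ Fin (k s)) => e s (Sum.inl p)) h
  simpa [extc] using h1

omit [Fintype S] [DecidableEq S] in
theorem extc_inl (π : Cf (fun s => Fin (M s) × Bool)) (s : S) (p : Fin (M s) × Bool) :
    extc (k := k) π s (Sum.inl p) = Sum.inl (π s p) := rfl

/-- the bad rows -/
noncomputable def Bdr (a : ∀ s, (Fin (M s) × Bool) ⊕ Fin (k s) → R)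
    (π π' : Cf (fun s => (Fin (M s) × Bool) ⊕ Fin (k s))) : Finset R :=
  ((univ.filter fun q : Σ s, (Fin (M s) × Bool) ⊕ Fin (k s) => π q.1 q.2 ≠ π' q.1 q.2).image
      fun q => a q.1 q.2) ∪
    ((univ : Finset (Σ s, Fin (k s))).image fun q => a q.1 (Sum.inr q.2))

omit [DecidableEq S] in
theorem card_Bdr (a : ∀ s, (Fin (M s) × Bool) ⊕ Fin (k s) → R)
    (π π' : Cf (fun s => (Fin (M s) × Bool) ⊕ Fin (k s))) :
    (Bdr a π π').card ≤ hdc π π' + ∑ s, k s := by
  unfold Bdr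
  refine (card_union_le _ _).trans (Nat.add_le_add (card_image_le.trans (le_of_eq ?_)) ?_)
  · unfold hdc
    congr
  · refine card_image_le.trans (le_of_eq ?_)
    rw [card_univ, Fintype.card_sigma]
    simp

/-- the extended signing -/
noncomputable def exs (V' : Finset V) (x : {v // v ∈ V'} → Bool) (v : V) : ℝ :=
  if h : v ∈ V' then sg (x ⟨v, h⟩) else 1

theorem exs_sign (V' : Finset V) (x : {v // v ∈ V'} → Bool) (v : V) :
    exs V' x v = 1 ∨ exs V' x v = -1 := by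
  unfold exs
  split_ifs with h
  · cases x ⟨v, h⟩ <;> simp [sg]
  · exact Or.inl rfl

omit [DecidableEq S] in
theorem row_good (val : S → ℝ) {n : ℕ} (al : ∀ s, Fin (M s) → Fin n) (e : Fin n × Bool → R)
    (he : Function.Injective e) (V' : Finset V)
    (a : ∀ s, (Fin (M s) × Bool) ⊕ Fin (k s) → R) (b : ∀ s, (Fin (M s) × Bool) ⊕ Fin (k s) → V)
    (ha : ∀ s l β, a s (Sum.inl (l, β)) = e (al s l, β))
    (hb : ∀ s q, b s (Sum.inl q) ∈ V') (π : Cf (fun s => (Fin (M s) × Bool) ⊕ Fin (k s)))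
    (π₀ : Cf (fun s => Fin (M s) × Bool)) (x : {v // v ∈ V'} → Bool) (C₀ : ℝ) (hC₀ : 0 ≤ C₀)
    (hx : ∀ r : Fin n × Bool, |rs val (fun s (p : Fin (M s) × Bool) => (al s p.1, p.2))
        (fun s p => x ⟨b s (Sum.inl (π₀ s p)), hb s (π₀ s p)⟩) r| ≤ C₀) (i : R)
    (hi : i ∉ Bdr a π (extc π₀)) :
    |∑ q ∈ univ.filter (fun q : Σ s, (Fin (M s) × Bool) ⊕ Fin (k s) => a q.1 q.2 = i),
      val q.1 * exs V' x (b q.1 (π q.1 q.2))| ≤ C₀ := by
  unfold Bdr at hi
  rw [mem_union, not_or] at hi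
  obtain ⟨hi1, hi2⟩ := hi
  have h1 : ∀ (s : S) (q : (Fin (M s) × Bool) ⊕ Fin (k s)), a s q = i →
      π s q = extc π₀ s q := by
    intro s q hq
    by_contra hcon
    exact hi1 (mem_image.2 ⟨⟨s, q⟩, mem_filter.2 ⟨mem_univ _, hcon⟩, hq⟩)
  have h1' : ∀ (s : S) (j : Fin (k s)), a s (Sum.inr j) ≠ i := by
    intro s j hq
    exact hi2 (mem_image.2 ⟨⟨s, j⟩, mem_univ _, hq⟩)
  by_cases hne : ∃ q : Σ s, (Fin (M s) × Bool) ⊕ Fin (k s), a q.1 q.2 = i
  swap
  · have h2 : univ.filter (fun q : Σ s, (Fin (M s) × Bool) ⊕ Fin (k s) => a q.1 q.2 = i) = ∅ := by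
      rw [filter_eq_empty_iff]
      intro q _ hq
      exact hne ⟨q, hq⟩
    rw [h2, sum_empty, abs_zero]
    exact hC₀
  have hr0 : ∃ r : Fin n × Bool, e r = i := by
    obtain ⟨⟨s₀, ⟨l₀, β₀⟩ | j⟩, hq₀⟩ := hne
    · exact ⟨_, (ha s₀ l₀ β₀).symm.trans hq₀⟩
    · exact absurd hq₀ (h1' _ _)
  obtain ⟨r, hq₀⟩ := hr0
  have h3 : ∑ q ∈ univ.filter (fun q : Σ s, (Fin (M s) × Bool) ⊕ Fin (k s) => a q.1 q.2 = i),
      val q.1 * exs V' x (b q.1 (π q.1 q.2)) =
      rs val (fun s (p : Fin (M s) × Bool) => (al s p.1, p.2))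
        (fun s p => x ⟨b s (Sum.inl (π₀ s p)), hb s (π₀ s p)⟩) r := by
    rw [rs_eq]
    symm
    refine sum_bij (fun q _ => ⟨q.1, Sum.inl q.2⟩) ?_ ?_ ?_ ?_
    · rintro ⟨s, l, β⟩ hq
      rw [mem_filter] at hq ⊢
      refine ⟨mem_univ _, ?_⟩
      have hq2 := hq.2
      dsimp only at hq2 ⊢
      rw [ha, ← hq₀, ← hq2]
    · rintro ⟨s, p⟩ _ ⟨s', p'⟩ _ h
      simp only [Sigma.mk.injEq] at h
      obtain ⟨rfl, h⟩ := h
      simp only [heq_eq_eq, Sum.inl.injEq] at h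
      subst h
      rfl
    · rintro ⟨s, ⟨l, β⟩ | j⟩ hq
      · have hq' := (mem_filter.1 hq).2
        dsimp only at hq'
        rw [ha, ← hq₀] at hq'
        exact ⟨⟨s, (l, β)⟩, mem_filter.2 ⟨mem_univ _, he hq'⟩, rfl⟩
      · exact absurd (mem_filter.1 hq).2 (h1' _ _)
    · rintro ⟨s, l, β⟩ hq
      have hq2 := (mem_filter.1 hq).2
      dsimp only at hq2 ⊢
      have h4 : a s (Sum.inl (l, β)) = i := by rw [ha, ← hq₀, ← hq2]
      have h5 := h1 s (Sum.inl (l, β)) h4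
      rw [h5, extc_inl]
      unfold exs
      rw [dif_pos (hb s _)]
  rw [h3]
  exact hx r

end

/-- The value of an array and of a configuration. -/
theorem aval_eq {S R V : Type} [Fintype S] [Fintype V] {X : S → Type} [∀ s, Fintype (X s)]
    (val : S → ℝ) (a : ∀ s, X s → R) (b : ∀ s, X s → V) (π : Cf X) (A : R → V → Option S)
    (hs : Simple a b π) (hm : Match a b π A) (y : V → ℝ) (i : R) :
    aval val A y i =
      ∑ q ∈ univ.filter (fun q : Σ s, X s => a q.1 q.2 = i), val q.1 * y (b q.1 (π q.1 q.2)) := by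
  unfold aval
  have h1 : ∀ q ∈ univ.filter (fun q : Σ s, X s => a q.1 q.2 = i),
      val q.1 * y (b q.1 (π q.1 q.2)) =
      (fun v => (A i v).elim 0 val * y v) (b q.1 (π q.1 q.2)) := by
    intro q hq
    have h2 : A i (b q.1 (π q.1 q.2)) = some q.1 :=
      (hm _ _ _).2 ⟨q.2, (mem_filter.1 hq).2, rfl⟩
    dsimp only
    rw [h2]
    rfl
  rw [sum_congr rfl h1, ← sum_image (s := univ.filter (fun q : Σ s, X s => a q.1 q.2 = i))
    (g := fun q : Σ s, X s => b q.1 (π q.1 q.2)) (f := fun v => (A i v).elim 0 val * y v)]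
  · symm
    refine sum_subset (subset_univ _) fun v _ hv => ?_
    rcases hA : A i v with _ | s
    · simp
    · exfalso
      apply hv
      obtain ⟨p, hp1, hp2⟩ := (hm _ _ _).1 hA
      exact mem_image.2 ⟨⟨s, p⟩, mem_filter.2 ⟨mem_univ _, hp1⟩, hp2⟩
  · intro q hq q' hq' h
    have h2 := (mem_filter.1 (mem_coe.1 hq)).2
    have h3 := (mem_filter.1 (mem_coe.1 hq')).2
    exact hs q q' (h2.trans h3.symm) h

end Pool.Agent.L0h98.KC
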