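import Pool.Agent.L0h98.KC.Main1

set_option autoImplicit false

/-! Project KC: almost all configurations have a good signing, parts. -/

namespace Pool.Agent.L0h98.KC

open Finset Classical
open Pool.Agent.N404.LF (cnt fact_ratio)
open Pool.Agent.N404.KL (sg tent)

theorem cnt_eq {X A : Type} [Fintype X] (f : X → A) (a : A) [DecidablePred fun x => f x = a] :
    cnt f a = (univ.filter fun x => f x = a).card := by
  unfold cnt
  congr

section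
variable {S R V : Type} [Fintype S] [DecidableEq S]

omit [DecidableEq S] in
theorem val_le [Fintype R] [Fintype V] (val : S → ℝ) (r : R → S → ℕ) (c : V → S → ℕ)
    (hrc : ∀ s, ∑ i, r i s = ∑ v, c v s)
    (hcol : ∀ v, ∑ s, (c v s : ℝ) * val s ^ 2 ≤ 1) (hcls1 : ∀ s, 1 ≤ ∑ i, r i s) (s : S) :
    |val s| ≤ 1 := by
  have h1 := hcls1 s
  rw [hrc s] at h1
  obtain ⟨v, -, hv⟩ := exists_ne_zero_of_sum_ne_zero (by omega : ∑ v, c v s ≠ 0)
  have h2 : (1 : ℝ) ≤ c v s := by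
    have : 1 ≤ c v s := by omega
    exact_mod_cast this
  have h3 : (c v s : ℝ) * val s ^ 2 ≤ 1 :=
    (single_le_sum (f := fun s => (c v s : ℝ) * val s ^ 2) (fun _ _ => by positivity)
      (mem_univ s)).trans (hcol v)
  have h4 : val s ^ 2 ≤ 1 := by nlinarith [sq_nonneg (val s)]
  rw [← sq_abs] at h4
  nlinarith [abs_nonneg (val s)]

omit [DecidableEq S] in
theorem fac_le (M k : S → ℕ) (K N : ℕ) (hk : ∀ s, k s ≤ K)
    (h1 : ∀ s, 1 ≤ Fintype.card ((Fin (M s) × Bool) ⊕ Fin (k s)))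
    (hN : ∀ s, Fintype.card ((Fin (M s) × Bool) ⊕ Fin (k s)) ≤ N) (T : ℝ) (hT : (N : ℝ) ≤ T) :
    ∏ s, ((Fintype.card ((Fin (M s) × Bool) ⊕ Fin (k s))).factorial : ℝ) ≤
      T ^ (Fintype.card S * K) * ∏ s, ((2 * M s).factorial : ℝ) := by
  have hXc : ∀ s, Fintype.card ((Fin (M s) × Bool) ⊕ Fin (k s)) = 2 * M s + k s := by
    intro s; simp [mul_comm]
  have h2 : ∀ s, ((Fintype.card ((Fin (M s) × Bool) ⊕ Fin (k s))).factorial : ℝ) ≤
      T ^ K * ((2 * M s).factorial : ℝ) := by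
    intro s
    have h4 := fact_ratio (N' := 2 * M s)
      (N := Fintype.card ((Fin (M s) × Bool) ⊕ Fin (k s))) (L := K)
      (by rw [hXc]; omega) (by rw [hXc]; have := hk s; omega) (h1 s)
    have h5 : ((Fintype.card ((Fin (M s) × Bool) ⊕ Fin (k s))).factorial : ℝ) ≤
        ((2 * M s).factorial : ℝ) *
          (Fintype.card ((Fin (M s) × Bool) ⊕ Fin (k s)) : ℝ) ^ K := by exact_mod_cast h4
    refine h5.trans ?_
    rw [mul_comm]
    refine mul_le_mul_of_nonneg_right (pow_le_pow_left₀ (Nat.cast_nonneg _) ?_ _)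
      (Nat.cast_nonneg _)
    refine le_trans ?_ hT
    exact_mod_cast hN s
  calc ∏ s, ((Fintype.card ((Fin (M s) × Bool) ⊕ Fin (k s))).factorial : ℝ)
      ≤ ∏ s, (T ^ K * ((2 * M s).factorial : ℝ)) :=
        prod_le_prod (fun s _ => Nat.cast_nonneg _) fun s _ => h2 s
    _ = _ := by
      rw [prod_mul_distrib, prod_const, card_univ, ← pow_mul, mul_comm K]

theorem mom_emb (hMOM : S_MOMC) [Fintype V] (Δ : ℕ) (val : S → ℝ) (c : V → S → ℕ)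
    (hc : ∀ v, ∑ s, c v s ≤ Δ) (hcol : ∀ v, ∑ s, (c v s : ℝ) * val s ^ 2 ≤ 1)
    (hval : ∀ s, |val s| ≤ 1) (M k : S → ℕ) (n : ℕ) (al : ∀ s, Fin (M s) → Fin n)
    (V' : Finset V) (b : ∀ s, (Fin (M s) × Bool) ⊕ Fin (k s) → V)
    (hb1 : ∀ s q, b s (Sum.inl q) ∈ V') (hb2 : ∀ s j, b s (Sum.inr j) ∉ V')
    (hb : ∀ v s, cnt (b s) v = c v s) (hne : ∀ v ∈ V', ∃ s, c v s ≠ 0)
    (heven : ∀ u : S → ℕ, Even (V'.filter fun v => c v = u).card) :
    ∃ G₀ : Finset (Cf (fun s => Fin (M s) × Bool)),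
      (∏ s, ((2 * M s).factorial : ℝ)) ≤ (3 * (((∑ s, 2 * M s : ℕ) : ℝ) + 1)) ^
        (6 * Fintype.card S + 3 * Fintype.card (S → Fin (Δ + 1))) * (G₀.card : ℝ) ∧
      ∀ π ∈ G₀, ∃ x : {v // v ∈ V'} → Bool,
      ∀ r : Fin n × Bool, |rs val (fun s (p : Fin (M s) × Bool) => (al s p.1, p.2))
        (fun s p => x ⟨b s (Sum.inl (π s p)), hb1 s (π s p)⟩) r| ≤ 300 := by
  have hcle : ∀ v s, c v s ≤ Δ := fun v s =>
    (single_le_sum (f := fun s => c v s) (fun _ _ => Nat.zero_le _) (mem_univ s)).trans (hc v)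
  have hlt : ∀ (v : V) (s : S), c v s < Δ + 1 := fun v s => by have := hcle v s; omega
  have hcb : ∀ (v : {v // v ∈ V'}) s,
      cnt (fun q : Fin (M s) × Bool => (⟨b s (Sum.inl q), hb1 s q⟩ : {v // v ∈ V'})) v =
        c v.1 s := by
    intro v s
    have h1 := hb v.1 s
    rw [cnt_sum] at h1
    have h2 : cnt (fun p => b s (Sum.inr p)) v.1 = 0 := by
      unfold cnt
      rw [card_eq_zero, filter_eq_empty_iff]
      intro j _ hj
      exact hb2 s j ((show b s (Sum.inr j) = v.1 from hj) ▸ v.2)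
    have h3 : cnt (fun q : Fin (M s) × Bool => (⟨b s (Sum.inl q), hb1 s q⟩ : {v // v ∈ V'})) v =
        cnt (fun p => b s (Sum.inl p)) v.1 := by
      unfold cnt
      congr 1
      ext p
      simp only [mem_filter, mem_univ, true_and]
      rw [Subtype.ext_iff]
    rw [h3]
    omega
  have hmom := hMOM S (S → Fin (Δ + 1)) (Fin n) {v // v ∈ V'} M val al
    (fun s q => ⟨b s (Sum.inl q), hb1 s q⟩) (fun v s => ⟨c v.1 s, hlt v.1 s⟩)
    (fun t s => ((t s : Fin (Δ + 1)) : ℕ)) hcb (fun v => hne v.1 v.2)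
    (fun v => hcol v.1) hval (by
      intro t
      have h1 := heven (fun s => (t s : ℕ))
      have h2 : cnt (fun (v : {v // v ∈ V'}) (s : S) => (⟨c v.1 s, hlt v.1 s⟩ : Fin (Δ + 1))) t =
          (V'.filter fun v => c v = fun s => (t s : ℕ)).card := by
        rw [cnt_eq]
        refine card_bij (fun v _ => v.1) ?_ ?_ ?_
        · intro v hv
          rw [mem_filter] at hv ⊢
          refine ⟨v.2, ?_⟩
          funext s
          exact congrArg (fun u : S → Fin (Δ + 1) => ((u s : Fin (Δ + 1)) : ℕ)) hv.2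
        · intro v _ v' _ h
          exact Subtype.ext h
        · intro v hv
          rw [mem_filter] at hv
          refine ⟨⟨v, hv.1⟩, mem_filter.2 ⟨mem_univ _, ?_⟩, rfl⟩
          funext s
          exact Fin.ext (congrFun hv.2 s)
      rw [h2]
      exact h1)
  refine ⟨univ.filter fun π : Cf (fun s => Fin (M s) × Bool) => ∃ x : {v // v ∈ V'} → Bool,
      ∀ r : Fin n × Bool, |rs val (fun s (p : Fin (M s) × Bool) => (al s p.1, p.2))
        (fun s p => x ⟨b s (Sum.inl (π s p)), hb1 s (π s p)⟩) r| ≤ 300, ?_,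
    fun π hπ => (mem_filter.1 hπ).2⟩
  convert hmom

omit [DecidableEq S] in
theorem good_of (hREP : S_REPC) [Fintype R] [Fintype V] (Δ : ℕ) (val : S → ℝ)
    (hval : ∀ s, |val s| ≤ 1) (M k : S → ℕ) (n : ℕ) (al : ∀ s, Fin (M s) → Fin n)
    (e : Fin n × Bool → R) (he : Function.Injective e) (V' : Finset V)
    (a : ∀ s, (Fin (M s) × Bool) ⊕ Fin (k s) → R) (b : ∀ s, (Fin (M s) × Bool) ⊕ Fin (k s) → V)
    (ha1 : ∀ s l β, a s (Sum.inl (l, β)) = e (al s l, β))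
    (hb1 : ∀ s q, b s (Sum.inl q) ∈ V') (hrow : ∀ i, ∑ s, cnt (a s) i ≤ Δ)
    (π : Cf (fun s => (Fin (M s) × Bool) ⊕ Fin (k s))) (hsim : Simple a b π)
    (π₀ : Cf (fun s => Fin (M s) × Bool)) (x : {v // v ∈ V'} → Bool)
    (hx : ∀ r : Fin n × Bool, |rs val (fun s (p : Fin (M s) × Bool) => (al s p.1, p.2))
        (fun s p => x ⟨b s (Sum.inl (π₀ s p)), hb1 s (π₀ s p)⟩) r| ≤ 300)
    (t : ℕ) (hBd : hdc π (extc π₀) + ∑ s, k s ≤ t)
    (hn2 : ¬ ∃ (A : Finset R) (B : Finset V),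
      A.Nonempty ∧ A.card + B.card ≤ 2 * t * (1 + Δ) ∧ 6 * (A.card + B.card) ≤ 5 *
        (univ.filter fun q : Σ s, (Fin (M s) × Bool) ⊕ Fin (k s) =>
          a q.1 q.2 ∈ A ∧ b q.1 (π q.1 q.2) ∈ B).card) :
    GoodC val a b 304 π := by
  obtain ⟨y, hy1, hy2⟩ := hREP R V (Σ s, (Fin (M s) × Bool) ⊕ Fin (k s)) (fun q => a q.1 q.2)
      (fun q => b q.1 (π q.1 q.2)) (fun q => val q.1) (exs V' x) 300 Δ (2 * t * (1 + Δ)) t
      (Bdr a π (extc π₀))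
      hsim (fun q => hval q.1) (fun i => by rw [cnt_sigma]; exact hrow i) (exs_sign V' x)
      (by norm_num) ((card_Bdr a π (extc π₀)).trans hBd) le_rfl (by
        intro A' T' hA' hAT
        by_contra hcon
        exact hn2 ⟨A', T', hA', hAT, not_lt.1 hcon⟩) (by
        intro i hi
        exact row_good val al e he V' a b ha1 hb1 π π₀ x 300 (by norm_num) hx i hi)
  refine ⟨y, hy1, fun i => ?_⟩
  have := hy2 i
  norm_num at this
  exact this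

end

/-- the numbers -/
theorem num_end (N c₀ K' C₁ : ℕ) (F g b1 b2 bd : ℝ) (hN1 : 1 ≤ N) (hF0 : 0 < F) (hb1 : 0 ≤ b1)
    (ev2 : (N : ℝ) ^ (1 / 3 : ℝ) * ((3 * ((N : ℝ) + 1)) ^ K' *
      Real.exp (-(1 / 18 * (N : ℝ) ^ (1 / 5 : ℝ)))) ≤ 1 / 3)
    (ev3 : (N : ℝ) ^ (1 / 3 : ℝ) * (C₁ * ((⌈(N : ℝ) ^ (3 / 5 : ℝ)⌉₊ + c₀ : ℕ) : ℝ)) ≤ N / 3)
    (hFA : F ≤ (3 * ((N : ℝ) + 1)) ^ K' * g)
    (hB1 : g * b1 ≤ F ^ 2 * Real.exp (-(((N : ℝ) ^ (3 / 5 : ℝ)) ^ 2 / (18 * (N : ℝ)))))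
    (hB2 : (N : ℝ) * b2 ≤ C₁ * ((⌈(N : ℝ) ^ (3 / 5 : ℝ)⌉₊ + c₀ : ℕ) : ℝ) * F)
    (hbd : bd ≤ b1 + b2) : (N : ℝ) ^ (1 / 3 : ℝ) * bd ≤ F := by
  have hN0 : (0 : ℝ) ≤ N := Nat.cast_nonneg _
  have hNpos : (0 : ℝ) < N := by exact_mod_cast hN1
  set T : ℝ := 3 * ((N : ℝ) + 1) with hT
  have hT0 : 0 ≤ T := by rw [hT]; linarith
  have hB1c : b1 ≤ F * (T ^ K' * Real.exp (-(1 / 18 * (N : ℝ) ^ (1 / 5 : ℝ)))) := by
    have h2 : Real.exp (-(((N : ℝ) ^ (3 / 5 : ℝ)) ^ 2 / (18 * (N : ℝ)))) ≤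
        Real.exp (-(1 / 18 * (N : ℝ) ^ (1 / 5 : ℝ))) := by
      refine Real.exp_le_exp.2 (neg_le_neg ?_)
      have e1 : ((N : ℝ) ^ (3 / 5 : ℝ)) ^ 2 = N * (N : ℝ) ^ (1 / 5 : ℝ) := by
        rw [← Real.rpow_natCast, ← Real.rpow_mul hN0]
        nth_rewrite 2 [← Real.rpow_one (N : ℝ)]
        rw [← Real.rpow_add hNpos]
        norm_num
      rw [e1]
      have e2 : (N : ℝ) * (N : ℝ) ^ (1 / 5 : ℝ) / (18 * N) = 1 / 18 * (N : ℝ) ^ (1 / 5 : ℝ) := by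
        field_simp
      rw [e2]
    have h3 : F * b1 ≤ F * (F * (T ^ K' * Real.exp (-(1 / 18 * (N : ℝ) ^ (1 / 5 : ℝ))))) := by
      calc F * b1 ≤ (T ^ K' * g) * b1 := mul_le_mul_of_nonneg_right hFA hb1
        _ = T ^ K' * (g * b1) := by ring
        _ ≤ T ^ K' * (F ^ 2 * Real.exp (-(((N : ℝ) ^ (3 / 5 : ℝ)) ^ 2 / (18 * (N : ℝ))))) :=
            mul_le_mul_of_nonneg_left hB1 (by positivity)
        _ ≤ T ^ K' * (F ^ 2 * Real.exp (-(1 / 18 * (N : ℝ) ^ (1 / 5 : ℝ)))) := by gcongr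
        _ = _ := by ring
    exact le_of_mul_le_mul_left h3 hF0
  set ν : ℝ := (N : ℝ) ^ (1 / 3 : ℝ) with hν
  have hν0 : 0 < ν := Real.rpow_pos_of_pos hNpos _
  have c1 : ν * b1 ≤ F / 3 := by
    calc ν * b1 ≤ ν * (F * (T ^ K' * Real.exp (-(1 / 18 * (N : ℝ) ^ (1 / 5 : ℝ))))) :=
          mul_le_mul_of_nonneg_left hB1c hν0.le
      _ = F * (ν * (T ^ K' * Real.exp (-(1 / 18 * (N : ℝ) ^ (1 / 5 : ℝ))))) := by ring
      _ ≤ F * (1 / 3) := mul_le_mul_of_nonneg_left ev2 hF0.le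
      _ = F / 3 := by ring
  have c2 : ν * b2 ≤ F / 3 := by
    have h1 : (N : ℝ) * (ν * b2) ≤ N * (F / 3) := by
      calc (N : ℝ) * (ν * b2) = ν * (N * b2) := by ring
        _ ≤ ν * (C₁ * ((⌈(N : ℝ) ^ (3 / 5 : ℝ)⌉₊ + c₀ : ℕ) : ℝ) * F) :=
          mul_le_mul_of_nonneg_left hB2 hν0.le
        _ = (ν * (C₁ * ((⌈(N : ℝ) ^ (3 / 5 : ℝ)⌉₊ + c₀ : ℕ) : ℝ))) * F := by ring
        _ ≤ (N / 3) * F := mul_le_mul_of_nonneg_right ev3 hF0.le
        _ = _ := by ring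
    exact le_of_mul_le_mul_left h1 hNpos
  calc ν * bd ≤ ν * (b1 + b2) := mul_le_mul_of_nonneg_left hbd hν0.le
    _ = ν * b1 + ν * b2 := by ring
    _ ≤ F / 3 + F / 3 := by linarith
    _ ≤ F := by linarith

end Pool.Agent.L0h98.KC
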