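import Pool.Agent.L0h98.KC.Main2

set_option autoImplicit false

/-! Project KC: almost all configurations have a good signing. -/

namespace Pool.Agent.L0h98.KC

open Finset Classical
open Pool.Agent.N404.LF (cnt S_EV)
open Pool.Agent.N404.KL (sg tent)

theorem mfi {α : Type} {s : Finset α} {p : α → Prop} {inst : DecidablePred p} {a : α} :
    a ∈ @Finset.filter α p inst s ↔ a ∈ s ∧ p a := Finset.mem_filter

theorem conf_bad (hMOM : S_MOMC) (hCONC : S_CONC) (hSPAR : S_SPAR) (hEMB : S_EMB)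
    (hREP : S_REPC) (hEV : S_EV) (S : Type) [Fintype S] [DecidableEq S] (Δ : ℕ) (δ : ℝ)
    (hδ : 0 < δ) : ∃ N₀ : ℕ, ∀ (R V : Type) [Fintype R] [Fintype V] (val : S → ℝ)
      (r : R → S → ℕ) (c : V → S → ℕ),
    (∀ i, ∑ s, r i s ≤ Δ) → (∀ v, ∑ s, c v s ≤ Δ) → (∀ s, ∑ i, r i s = ∑ v, c v s) →
    (∀ v, ∑ s, (c v s : ℝ) * val s ^ 2 ≤ 1) →
    (∀ s, δ * ((∑ s', ∑ i, r i s' : ℕ) : ℝ) ≤ (∑ i, r i s : ℕ)) → N₀ ≤ ∑ s, ∑ i, r i s →
    ∃ (M k : S → ℕ) (a : ∀ s, (Fin (M s) × Bool) ⊕ Fin (k s) → R)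
      (b : ∀ s, (Fin (M s) × Bool) ⊕ Fin (k s) → V),
      (∀ i s, cnt (a s) i = r i s) ∧ (∀ v s, cnt (b s) v = c v s) ∧
      ((∑ s, ∑ i, r i s : ℕ) : ℝ) ^ (1 / 3 : ℝ) *
        ((univ.filter fun π : Cf (fun s => (Fin (M s) × Bool) ⊕ Fin (k s)) =>
          Simple a b π ∧ ¬ GoodC val a b 304 π).card : ℝ) ≤
      ∏ s, ((Fintype.card ((Fin (M s) × Bool) ⊕ Fin (k s))).factorial : ℝ) := by
  obtain ⟨K, hK⟩ := hEMB S Δ
  obtain ⟨C₁, hC₁⟩ := hSPAR S Δ δ hδ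
  obtain ⟨N₀, hN₀⟩ := hEV 2 0 (6 * Fintype.card S + 3 * Fintype.card (S → Fin (Δ + 1)) +
    Fintype.card S * K) (Fintype.card S * K) (C₁ * (2 * (1 + Δ))) 0 (1 / 18) (1 / 2) le_rfl
    (by norm_num) (by norm_num) (by norm_num)
  refine ⟨max N₀ 1, fun R V _ _ val r c hr hc hrc hcol hcls hN => ?_⟩
  obtain ⟨M, k, n, al, e, V', a, b, hk, he, ha1, -, hb1, hb2, ha, hb, hne, heven⟩ :=
    hK R V r c hr hc hrc
  refine ⟨M, k, a, b, ha, hb, ?_⟩
  have hXr : ∀ s, Fintype.card ((Fin (M s) × Bool) ⊕ Fin (k s)) = ∑ i, r i s := by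
    intro s
    rw [← sum_cnt (a s)]
    exact sum_congr rfl fun i _ => ha i s
  have hSig : Fintype.card (Σ s, (Fin (M s) × Bool) ⊕ Fin (k s)) = ∑ s, ∑ i, r i s := by
    rw [Fintype.card_sigma]
    exact sum_congr rfl fun s _ => hXr s
  generalize hNdef : (∑ s, ∑ i, r i s) = N at hN hcls hSig ⊢
  have hNN₀ : N₀ ≤ N := (le_max_left _ _).trans hN
  have hN1 : 1 ≤ N := (le_max_right _ _).trans hN
  obtain ⟨ev1, ev2, ev3, -, -⟩ := hN₀ N hNN₀
  have hNpos : (0 : ℝ) < N := by exact_mod_cast hN1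
  have hXN : ∀ s, Fintype.card ((Fin (M s) × Bool) ⊕ Fin (k s)) ≤ N := by
    intro s
    rw [hXr, ← hNdef]
    exact single_le_sum (f := fun s => ∑ i, r i s) (fun _ _ => Nat.zero_le _) (mem_univ s)
  have hcls1 : ∀ s, 1 ≤ ∑ i, r i s := by
    intro s
    have h1 := hcls s
    have h2 : (0 : ℝ) < ((∑ i, r i s : ℕ) : ℝ) := lt_of_lt_of_le (mul_pos hδ hNpos) h1
    have h3 : 0 < ∑ i, r i s := by exact_mod_cast h2
    omega
  have hval := val_le val r c hrc hcol hcls1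
  obtain ⟨G₀, hG1, hG2⟩ := mom_emb hMOM Δ val c hc hcol hval M k n al V' b hb1 hb2 hb hne heven
  have hrow : ∀ i, ∑ s, cnt (a s) i ≤ Δ := by
    intro i
    rw [sum_congr rfl fun s _ => ha i s]
    exact hr i
  have hcolu : ∀ v, ∑ s, cnt (b s) v ≤ Δ := by
    intro v
    rw [sum_congr rfl fun s _ => hb v s]
    exact hc v
  have hfac := fac_le M k K N hk (fun s => by rw [hXr]; exact hcls1 s) hXN
    (3 * ((N : ℝ) + 1)) (by linarith)
  have hsum : ((∑ s, 2 * M s : ℕ) : ℝ) ≤ N := by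
    have h3 : ∑ s, 2 * M s ≤ N := by
      rw [← hSig, Fintype.card_sigma]
      refine sum_le_sum fun s _ => ?_
      have : Fintype.card ((Fin (M s) × Bool) ⊕ Fin (k s)) = 2 * M s + k s := by
        simp [mul_comm]
      omega
    exact_mod_cast h3
  have hconc := hCONC S (fun s => (Fin (M s) × Bool) ⊕ Fin (k s)) (G₀.image extc)
    ((N : ℝ) ^ (3 / 5 : ℝ)) (by positivity)
  have hspar := hC₁ R V (fun s => (Fin (M s) × Bool) ⊕ Fin (k s)) a b hrow hcolu (by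
      intro s
      rw [hSig, hXr]
      exact hcls s)
    (2 * (⌈(N : ℝ) ^ (3 / 5 : ℝ)⌉₊ + Fintype.card S * K) * (1 + Δ))
    (by
      rw [hSig]
      refine le_trans (le_of_eq ?_) ev1
      ring)
  rw [hSig] at hspar hconc
  rw [card_image_of_injective _ extc_inj] at hconc
  refine num_end N (Fintype.card S * K) (6 * Fintype.card S + 3 * Fintype.card (S → Fin (Δ + 1)) +
    Fintype.card S * K) (C₁ * (2 * (1 + Δ))) _ (G₀.card : ℝ) _ _ hN1
    (prod_pos fun s _ => by positivity) (Nat.cast_nonneg _) ev2 ev3 ?_ hconc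
    (b2 := (((univ.filter fun π : Cf (fun s => (Fin (M s) × Bool) ⊕ Fin (k s)) =>
    ∃ (A : Finset R) (B : Finset V),
      A.Nonempty ∧ A.card + B.card ≤
        2 * (⌈(N : ℝ) ^ (3 / 5 : ℝ)⌉₊ + Fintype.card S * K) * (1 + Δ) ∧
      6 * (A.card + B.card) ≤ 5 *
        (univ.filter fun q : Σ s, (Fin (M s) × Bool) ⊕ Fin (k s) =>
          a q.1 q.2 ∈ A ∧ b q.1 (π q.1 q.2) ∈ B).card).card : ℕ) : ℝ)) ?_ ?_
  · calc _ ≤ _ := hfac
      _ ≤ (3 * ((N : ℝ) + 1)) ^ (Fintype.card S * K) *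
          ((3 * (((∑ s, 2 * M s : ℕ) : ℝ) + 1)) ^
            (6 * Fintype.card S + 3 * Fintype.card (S → Fin (Δ + 1))) * (G₀.card : ℝ)) :=
          mul_le_mul_of_nonneg_left hG1 (by positivity)
      _ ≤ (3 * ((N : ℝ) + 1)) ^ (Fintype.card S * K) *
          ((3 * ((N : ℝ) + 1)) ^
            (6 * Fintype.card S + 3 * Fintype.card (S → Fin (Δ + 1))) * (G₀.card : ℝ)) := by
          refine mul_le_mul_of_nonneg_left (mul_le_mul_of_nonneg_right
            (pow_le_pow_left₀ (by positivity) (by linarith) _) (Nat.cast_nonneg _)) (by positivity)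
      _ = _ := by rw [pow_add _ (6 * Fintype.card S + 3 * Fintype.card (S → Fin (Δ + 1)))]; ring
  · have h1 : ((N * (univ.filter fun π : Cf (fun s => (Fin (M s) × Bool) ⊕ Fin (k s)) =>
        ∃ (A : Finset R) (B : Finset V),
        A.Nonempty ∧ A.card + B.card ≤
        2 * (⌈(N : ℝ) ^ (3 / 5 : ℝ)⌉₊ + Fintype.card S * K) * (1 + Δ) ∧
        6 * (A.card + B.card) ≤ 5 *
        (univ.filter fun q : Σ s, (Fin (M s) × Bool) ⊕ Fin (k s) =>
          a q.1 q.2 ∈ A ∧ b q.1 (π q.1 q.2) ∈ B).card).card : ℕ) : ℝ) ≤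
        ((C₁ * (2 * (⌈(N : ℝ) ^ (3 / 5 : ℝ)⌉₊ + Fintype.card S * K) * (1 + Δ)) *
          ∏ s, (Fintype.card ((Fin (M s) × Bool) ⊕ Fin (k s))).factorial : ℕ) : ℝ) :=
      Nat.cast_le.2 hspar
    rw [Nat.cast_mul] at h1
    refine h1.trans (le_of_eq ?_)
    push_cast
    ring
  · rw [← Nat.cast_add]
    refine Nat.cast_le.2 (le_trans (card_le_card ?_) (card_union_le _ _))
    intro π hπ
    by_contra hnot
    rw [mem_union, not_or, mfi, mfi] at hnot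
    obtain ⟨hn1, hn2⟩ := hnot
    obtain ⟨-, hsim, hbad⟩ := mem_filter.1 hπ
    apply hbad
    have hex : ∃ π₀ ∈ G₀, (hdc π (extc π₀) : ℝ) < (N : ℝ) ^ (3 / 5 : ℝ) := by
      by_contra hcon
      push Not at hcon
      apply hn1
      refine ⟨mem_univ _, ?_⟩
      intro π' hπ'
      obtain ⟨π₀, hπ₀, rfl⟩ := mem_image.1 hπ'
      exact hcon π₀ hπ₀
    obtain ⟨π₀, hπ₀, hdist⟩ := hex
    obtain ⟨x, hx⟩ := hG2 π₀ hπ₀
    refine good_of hREP Δ val hval M k n al e he V' a b ha1 hb1 hrow π hsim π₀ x hx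
      (⌈(N : ℝ) ^ (3 / 5 : ℝ)⌉₊ + Fintype.card S * K) ?_ (fun hcon => hn2 ⟨mem_univ _, hcon⟩)
    refine Nat.add_le_add ?_ ?_
    · have h1 : (hdc π (extc π₀) : ℝ) ≤ (⌈(N : ℝ) ^ (3 / 5 : ℝ)⌉₊ : ℝ) :=
        hdist.le.trans (Nat.le_ceil _)
      exact_mod_cast h1
    · refine (sum_le_card_nsmul _ _ K fun s _ => hk s).trans ?_
      rw [card_univ, smul_eq_mul]

/-- transfer between configurations and arrays -/
theorem transfer {S R V : Type} [Fintype S] [DecidableEq S] [Fintype R] [Fintype V]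
    {X : S → Type} [∀ s, Fintype (X s)] [∀ s, DecidableEq (X s)] (a : ∀ s, X s → R)
    (b : ∀ s, X s → V) (F : ℕ) (Ar : Finset (R → V → Option S))
    (hF : ∀ A ∈ Ar, (univ.filter fun π : Cf X => Simple a b π ∧ Match a b π A).card = F)
    (Q : (R → V → Option S) → Prop) [DecidablePred Q] :
    (univ.filter fun π : Cf X => Simple a b π ∧ ∃ A ∈ Ar, Match a b π A ∧ Q A).card =
      F * (Ar.filter Q).card := by
  have h1 : (univ.filter fun π : Cf X => Simple a b π ∧ ∃ A ∈ Ar, Match a b π A ∧ Q A) =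
      (Ar.filter Q).biUnion fun A => univ.filter fun π : Cf X => Simple a b π ∧ Match a b π A := by
    ext π
    simp only [mem_filter, mem_univ, true_and, mem_biUnion]
    constructor
    · rintro ⟨h1, A, hA, h2, h3⟩
      exact ⟨A, ⟨hA, h3⟩, h1, h2⟩
    · rintro ⟨A, ⟨hA, h3⟩, h1, h2⟩
      exact ⟨h1, A, hA, h2, h3⟩
  rw [h1, card_biUnion]
  · rw [sum_congr rfl (fun A hA => hF A (mem_filter.1 hA).1), sum_const, smul_eq_mul, mul_comm]
  · intro A _ A' _ hne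
    rw [Function.onFun, disjoint_left]
    intro π hπ hπ'
    apply hne
    have h2 := (mem_filter.1 hπ).2.2
    have h3 := (mem_filter.1 hπ').2.2
    funext i v
    apply Option.ext
    intro s
    have h4 := h2 i v s
    have h5 := h3 i v s
    exact h4.trans h5.symm

theorem t_MAINC (hMOM : S_MOMC) (hCONC : S_CONC) (hSPAR : S_SPAR) (hEMB : S_EMB)
    (hREP : S_REPC) (hSIMP : S_SIMP) (hCNF : S_CNF) (hEV : S_EV) : S_MAINC := by
  intro S _ _ Δ δ hδ
  obtain ⟨N₀, hN₀⟩ := conf_bad hMOM hCONC hSPAR hEMB hREP hEV S Δ δ hδ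
  obtain ⟨C, hC⟩ := hSIMP S Δ δ hδ
  refine ⟨max N₀ (max C ((C + 1) ^ 12)), fun R V _ _ val r c hr hc hcol hcls hN => ?_⟩
  by_cases hemp : (Arr r c) = ∅
  · rw [hemp, filter_empty, card_empty, Nat.cast_zero, mul_zero]
  obtain ⟨A₀, hA₀⟩ := Finset.nonempty_iff_ne_empty.2 hemp
  have hA₀' := (mem_filter.1 hA₀).2
  have hrc : ∀ s, ∑ i, r i s = ∑ v, c v s := by
    intro s
    rw [sum_congr rfl fun i _ => (hA₀'.1 i s).symm, sum_congr rfl fun v _ => (hA₀'.2 v s).symm]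
    simp only [card_filter]
    exact sum_comm
  obtain ⟨M, k, a, b, ha, hb, hbad⟩ := hN₀ R V val r c hr hc hrc hcol hcls
    ((le_max_left _ _).trans hN)
  have hXr : ∀ s, Fintype.card ((Fin (M s) × Bool) ⊕ Fin (k s)) = ∑ i, r i s := by
    intro s
    rw [← sum_cnt (a s)]
    exact sum_congr rfl fun i _ => ha i s
  have hSig : Fintype.card (Σ s, (Fin (M s) × Bool) ⊕ Fin (k s)) = ∑ s, ∑ i, r i s := by
    rw [Fintype.card_sigma]
    exact sum_congr rfl fun s _ => hXr s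
  generalize hNdef : (∑ s, ∑ i, r i s) = N at hN hcls hSig hbad ⊢
  have hCN : C ≤ N := (le_max_left _ _).trans ((le_max_right _ _).trans hN)
  have hCN' : (C + 1) ^ 12 ≤ N := (le_max_right _ _).trans ((le_max_right _ _).trans hN)
  have hN1 : 1 ≤ N := le_trans (Nat.one_le_pow _ _ (by omega)) hCN'
  have hNpos : (0 : ℝ) < N := by exact_mod_cast hN1
  have hrow : ∀ i, ∑ s, cnt (a s) i ≤ Δ := by
    intro i
    rw [sum_congr rfl fun s _ => ha i s]
    exact hr i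
  have hcolu : ∀ v, ∑ s, cnt (b s) v ≤ Δ := by
    intro v
    rw [sum_congr rfl fun s _ => hb v s]
    exact hc v
  have hsimp := hC R V (fun s => (Fin (M s) × Bool) ⊕ Fin (k s)) a b hrow hcolu (by
      intro s
      rw [hSig, hXr]
      exact hcls s) (by rw [hSig]; exact hCN)
  obtain ⟨F, hF0, hF1, hF2⟩ := hCNF S R V (fun s => (Fin (M s) × Bool) ⊕ Fin (k s)) a b
  have har : (Arr (fun i s => cnt (a s) i) (fun v s => cnt (b s) v)) = Arr r c := by
    congr 1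
    · funext i s; exact ha i s
    · funext v s; exact hb v s
  rw [har] at hF1 hF2
  have htall := transfer a b F (Arr r c) hF1 (fun _ => True)
  have htbad := transfer a b F (Arr r c) hF1 (fun A =>
    ¬ ∃ y : V → ℝ, (∀ v, y v = 1 ∨ y v = -1) ∧ ∀ i, |aval val A y i| ≤ 304)
  have hT : ∀ (inst : DecidablePred fun _ : R → V → Option S => True),
      @Finset.filter _ (fun _ => True) inst (Arr r c) = Arr r c := fun inst => by ext A; simp
  rw [hT] at htall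
  have h1 : (univ.filter fun π : Cf (fun s => (Fin (M s) × Bool) ⊕ Fin (k s)) =>
      Simple a b π).card ≤ F * (Arr r c).card := by
    rw [← htall]
    refine card_le_card fun π hπ => ?_
    rw [mfi] at hπ ⊢
    obtain ⟨A, hA, hm⟩ := hF2 π hπ.2
    exact ⟨mem_univ _, hπ.2, A, hA, hm, trivial⟩
  have h2 : F * ((Arr r c).filter fun A =>
      ¬ ∃ y : V → ℝ, (∀ v, y v = 1 ∨ y v = -1) ∧ ∀ i, |aval val A y i| ≤ 304).card ≤
      (univ.filter fun π : Cf (fun s => (Fin (M s) × Bool) ⊕ Fin (k s)) =>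
          Simple a b π ∧ ¬ GoodC val a b 304 π).card := by
    rw [← htbad]
    refine card_le_card fun π hπ => ?_
    rw [mfi] at hπ ⊢
    obtain ⟨-, hs, A, hA, hm, hbadA⟩ := hπ
    refine ⟨mem_univ _, hs, fun hg => hbadA ?_⟩
    obtain ⟨y, hy1, hy2⟩ := hg
    refine ⟨y, hy1, fun i => ?_⟩
    rw [aval_eq val a b π A hs hm y i]
    exact hy2 i
  set X := (Arr r c).card with hX
  set Y := ((Arr r c).filter fun A =>
      ¬ ∃ y : V → ℝ, (∀ v, y v = 1 ∨ y v = -1) ∧ ∀ i, |aval val A y i| ≤ 304).card with hY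
  set ν : ℝ := (N : ℝ) ^ (1 / 3 : ℝ) with hν
  have hν0 : 0 < ν := Real.rpow_pos_of_pos hNpos _
  have hFpos : (0 : ℝ) < F := by exact_mod_cast hF0
  have hall : ∏ s, ((Fintype.card ((Fin (M s) × Bool) ⊕ Fin (k s))).factorial : ℝ) ≤
      C * (F * X) := by
    have h3 := hsimp.trans (Nat.mul_le_mul_left C h1)
    have h4 : ((∏ s, (Fintype.card ((Fin (M s) × Bool) ⊕ Fin (k s))).factorial : ℕ) : ℝ) ≤
      ((C * (F * X) : ℕ) : ℝ) := Nat.cast_le.2 h3
    push_cast at h4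
    exact h4
  have h3 : ν * (Y : ℝ) ≤ (C + 1) * X := by
    have h4 : (F : ℝ) * (ν * Y) ≤ F * ((C + 1) * X) := by
      have h5 : ((F * Y : ℕ) : ℝ) ≤ _ := Nat.cast_le.2 h2
      rw [Nat.cast_mul] at h5
      calc (F : ℝ) * (ν * Y) = ν * (F * Y) := by ring
        _ ≤ ν * _ := mul_le_mul_of_nonneg_left h5 hν0.le
        _ ≤ _ := hbad
        _ ≤ C * (F * X) := hall
        _ ≤ F * ((C + 1) * X) := by
            have h6 : (0 : ℝ) ≤ F * X := by positivity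
            nlinarith
    exact le_of_mul_le_mul_left h4 hFpos
  -- numbers
  have hK1 : (1 : ℝ) ≤ (C : ℝ) + 1 := by
    have : (0 : ℝ) ≤ C := Nat.cast_nonneg _
    linarith
  have h5 : ((C : ℝ) + 1) ≤ (N : ℝ) ^ (1 / 12 : ℝ) := by
    have h6 : ((C : ℝ) + 1) ^ (12 : ℕ) ≤ N := by exact_mod_cast hCN'
    have h7 : (((C : ℝ) + 1) ^ (12 : ℕ)) ^ (1 / 12 : ℝ) ≤ (N : ℝ) ^ (1 / 12 : ℝ) :=
      Real.rpow_le_rpow (by positivity) h6 (by norm_num)
    rw [← Real.rpow_natCast, ← Real.rpow_mul (by positivity)] at h7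
    norm_num at h7
    convert h7 using 2
  have e3 : ν = (N : ℝ) ^ (1 / 4 : ℝ) * (N : ℝ) ^ (1 / 12 : ℝ) := by
    rw [hν, ← Real.rpow_add hNpos]; norm_num
  have e4 : (0 : ℝ) < (N : ℝ) ^ (1 / 4 : ℝ) := Real.rpow_pos_of_pos hNpos _
  have hY0 : (0 : ℝ) ≤ Y := Nat.cast_nonneg _
  have hK0 : (0 : ℝ) < (C : ℝ) + 1 := by linarith
  have h7 : ((C : ℝ) + 1) * ((N : ℝ) ^ (1 / 4 : ℝ) * Y) ≤ ((C : ℝ) + 1) * X := by
    calc ((C : ℝ) + 1) * ((N : ℝ) ^ (1 / 4 : ℝ) * Y) =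
          ((N : ℝ) ^ (1 / 4 : ℝ) * ((C : ℝ) + 1)) * Y := by ring
      _ ≤ ν * Y := by
          refine mul_le_mul_of_nonneg_right ?_ hY0
          rw [e3]
          exact mul_le_mul_of_nonneg_left h5 e4.le
      _ ≤ _ := h3
  exact le_of_mul_le_mul_left h7 hK0

end Pool.Agent.L0h98.KC
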