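import Pool.Agent.L0h98.KC.Def

set_option autoImplicit false

/-! Project KC: the second moment. -/

namespace Pool.Agent.L0h98.KC

open Finset Classical
open Pool.Agent.N404.LF (cnt)
open Pool.Agent.N404.KL (sg tent S_RAT)

theorem tent_nn (C u : ℝ) : 0 ≤ tent C u := le_max_left _ _

section
variable {V T : Type} [Fintype V] [Fintype T]

/-- the signings that are balanced on every type -/
noncomputable def Bal (ty : V → T) : Finset (V → Bool) :=
  univ.filter fun x : V → Bool =>
      ∀ t, 2 * (univ.filter fun v => ty v = t ∧ x v = true).card = cnt ty t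

theorem cnt_comp {P : Type} [Fintype P] (b : P → V) (x : V → Bool) :
    cnt (fun p => x (b p)) true = ∑ v ∈ univ.filter (fun v => x v = true), cnt b v := by
  have h1 : (univ.filter fun p => x (b p) = true) =
      (univ.filter fun v => x v = true).biUnion fun v => univ.filter fun p => b p = v := by
    ext p
    simp
  have h2 : cnt (fun p => x (b p)) true = (univ.filter fun p => x (b p) = true).card := by
    unfold cnt
    congr 1
    ext p
    simp
  rw [h2, h1, card_biUnion]
  · rfl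
  intro v _ v' _ hvv
  rw [Function.onFun, disjoint_left]
  intro p hp hp'
  exact hvv ((mem_filter.1 hp).2.symm.trans (mem_filter.1 hp').2)

theorem sum_cnt {P : Type} [Fintype P] (b : P → V) : ∑ v, cnt b v = Fintype.card P := by
  unfold cnt
  rw [← card_univ (α := P)]
  exact (card_eq_sum_card_fiberwise (f := b) (s := univ) (t := univ) (fun _ _ => by simp)).symm

theorem bal_slots {P : Type} [Fintype P] (b : P → V) (ty : V → T) (c : T → ℕ)
    (hc : ∀ v, cnt b v = c (ty v)) {x : V → Bool} (hx : x ∈ Bal ty) :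
    2 * cnt (fun p => x (b p)) true = Fintype.card P := by
  have hx' := (mem_filter.1 hx).2
  rw [cnt_comp, ← sum_cnt b]
  have h1 : ∑ v ∈ univ.filter (fun v => x v = true), cnt b v =
      ∑ t, c t * (univ.filter fun v => ty v = t ∧ x v = true).card := by
    rw [← sum_fiberwise (univ.filter fun v => x v = true) ty]
    refine sum_congr rfl fun t _ => ?_
    rw [filter_filter]
    have h2 : ∀ v ∈ univ.filter (fun v => x v = true ∧ ty v = t), cnt b v = c t := by
      intro v hv
      rw [hc, (mem_filter.1 hv).2.2]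
    rw [sum_congr rfl h2, sum_const, smul_eq_mul, mul_comm]
    congr 2
    ext v
    simp only [mem_filter, mem_univ, true_and]
    exact and_comm
  have h3 : ∑ v, cnt b v = ∑ t, c t * cnt ty t := by
    rw [← sum_fiberwise univ ty]
    refine sum_congr rfl fun t _ => ?_
    have h2 : ∀ v ∈ univ.filter (fun v => ty v = t), cnt b v = c t := by
      intro v hv
      rw [hc, (mem_filter.1 hv).2]
    rw [sum_congr rfl h2, sum_const, smul_eq_mul, mul_comm]
    rfl
  rw [h1, h3, mul_sum]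
  refine sum_congr rfl fun t _ => ?_
  rw [← hx' t]
  ring

end

theorem tr_pos (hRAT : S_RAT) {S R : Type} [Fintype S] {X : S → Type} [∀ s, Fintype (X s)]
    (val : S → ℝ) (a : ∀ s, X s → R) (hval : ∀ s, |val s| ≤ 1) (r : R) : 0 < tr val a r := by
  have h := (hRAT {q : Σ s, X s // a q.1 q.2 = r} (fun q => val q.1.1) (fun _ => 0)
      (fun q => hval _) (by simp)).1
  unfold tr
  exact h

theorem t_MOMC (hUPR : S_UPR) (hLOR : S_LOR) (hHTY : S_HTY) (hBTY : S_BTY) (hJEN : S_JEN)
    (hRAT : S_RAT) : S_MOMC := by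
  intro S T I V _ _ _ _ _ M val al b ty c hc hne hcol hval hev
  set a : ∀ s, Fin (M s) × Bool → I × Bool := fun s p => (al s p.1, p.2) with ha
  set N' : ℕ := ∑ s, 2 * M s with hN'
  set D : ℝ := 3 * ((N' : ℝ) + 1) with hD
  set n : ℕ := Fintype.card V with hn
  set nS := Fintype.card S with hnS
  set nT := Fintype.card T with hnT
  set G := univ.filter fun π : Cf (fun s => Fin (M s) × Bool) => ∃ x : V → Bool, ∀ r : I × Bool,
      |rs val a (fun s p => x (b s (π s p))) r| ≤ 300 with hG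
  set F : ℝ := ∏ s, ((2 * M s).factorial : ℝ) with hF
  set TT : ℝ := ∏ r, tr val a r with hTT
  set w : (V → Bool) → Cf (fun s => Fin (M s) × Bool) → ℝ := fun x π =>
    ∏ r, tent 300 (rs val a (fun s p => x (b s (π s p))) r) with hw
  have hw0 : ∀ x π, 0 ≤ w x π := fun x π => prod_nonneg fun _ _ => tent_nn _ _
  set Z : Cf (fun s => Fin (M s) × Bool) → ℝ := fun π => ∑ x ∈ Bal ty, w x π with hZ
  set S1 := ∑ π, Z π with hS1
  set S2 := ∑ π, Z π ^ 2 with hS2
  have hcard : ∀ s, Fintype.card (Fin (M s) × Bool) = 2 * M s := by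
    intro s; simp [mul_comm]
  have hN0 : (0 : ℝ) ≤ N' := Nat.cast_nonneg _
  have hD1 : 1 ≤ D := by rw [hD]; linarith
  have hD0 : 0 ≤ D := by linarith
  have hF0 : 0 < F := prod_pos fun s _ => by positivity
  have htr : ∀ r, 0 < tr val a r := fun r => tr_pos hRAT val a hval r
  have hTT0 : 0 < TT := prod_pos fun r _ => htr r
  -- n ≤ N'
  have hnN : n ≤ N' := by
    have h1 : ∑ s, ∑ v, cnt (b s) v = N' := by
      rw [hN']
      refine sum_congr rfl fun s _ => ?_
      rw [sum_cnt, hcard]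
    rw [← h1, sum_comm, hn, Fintype.card_eq_sum_ones]
    refine sum_le_sum fun v _ => ?_
    obtain ⟨s, hs⟩ := hne v
    have h2 : 1 ≤ cnt (b s) v := by rw [hc]; omega
    exact h2.trans (single_le_sum (f := fun s => cnt (b s) v) (fun _ _ => Nat.zero_le _) (mem_univ s))
  have hnD : (n : ℝ) + 1 ≤ D := by
    have : (n : ℝ) ≤ N' := by exact_mod_cast hnN
    rw [hD]; linarith
  have hMs : ∀ s, 2 * M s ≤ N' := fun s =>
    single_le_sum (f := fun s => 2 * M s) (fun _ _ => Nat.zero_le _) (mem_univ s)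
  have hMD : ∀ s, (M s : ℝ) + 1 ≤ D := by
    intro s
    have h1 : ((2 * M s : ℕ) : ℝ) ≤ N' := by exact_mod_cast hMs s
    push_cast at h1
    have h2 : (0 : ℝ) ≤ M s := Nat.cast_nonneg _
    rw [hD]; linarith
  have hND : ∀ s, 3 * ((Fintype.card (Fin (M s) × Bool) : ℝ) + 1) ≤ D := by
    intro s
    have h1 : ((2 * M s : ℕ) : ℝ) ≤ N' := by exact_mod_cast hMs s
    rw [hcard, hD]
    linarith
  -- balanced words
  have hbx : ∀ x ∈ Bal ty, ∀ s, 2 * cnt (fun p => x (b s p)) true =
      Fintype.card (Fin (M s) × Bool) := fun x hx s =>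
    bal_slots (b s) ty (fun t => c t s) (fun v => hc v s) hx
  have hbx' : ∀ x ∈ Bal ty, ∀ s, cnt (fun p => x (b s p)) true = M s := by
    intro x hx s
    have := hbx x hx s
    rw [hcard] at this
    omega
  -- first moment
  have hL : ((Bal ty).card : ℝ) * (F * TT) ≤ (4 ^ (∑ s, M s) * D ^ nS) * S1 := by
    have h1 : ∀ x ∈ Bal ty, F * TT ≤ (4 ^ (∑ s, M s) * D ^ nS) * ∑ π, w x π := by
      intro x hx
      have h2 := hLOR S I M al val (fun s p => x (b s p)) (hbx' x hx)
      refine h2.trans ?_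
      refine mul_le_mul_of_nonneg_right ?_ (sum_nonneg fun π _ => hw0 x π)
      rw [prod_mul_distrib, prod_pow_eq_pow_sum]
      refine mul_le_mul_of_nonneg_left ?_ (by positivity)
      rw [hnS, ← card_univ, ← prod_const]
      exact prod_le_prod (fun s _ => by positivity) fun s _ => hMD s
    have h3 := sum_le_sum h1
    rw [sum_const, nsmul_eq_mul, ← mul_sum, sum_comm] at h3
    exact h3
  -- second moment
  have hexp : ∀ x y : V → Bool, 1 / 2 * ∑ s, val s ^ 2 * ((∑ p, sg (x (b s p)) * sg (y (b s p))) ^ 2 /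
      Fintype.card (Fin (M s) × Bool)) ≤
      ∑ t, (∑ v ∈ univ.filter (fun v => ty v = t), sg (x v) * sg (y v)) ^ 2 / (2 * (cnt ty t : ℝ)) := by
    intro x y
    have h1 := hJEN S V T (fun s => Fin (M s) × Bool) b ty c val (fun v => sg (x v) * sg (y v)) hc hcol
    have h2 : ∀ t, (∑ v ∈ univ.filter (fun v => ty v = t), sg (x v) * sg (y v)) ^ 2 /
        (2 * (cnt ty t : ℝ)) = 1 / 2 * ((∑ v ∈ univ.filter (fun v => ty v = t), sg (x v) * sg (y v)) ^ 2 /
        (cnt ty t : ℝ)) := by
      intro t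
      rw [mul_comm 2 (cnt ty t : ℝ), ← div_div]
      ring
    rw [sum_congr rfl fun t _ => h2 t, ← mul_sum]
    exact mul_le_mul_of_nonneg_left h1 (by norm_num)
  have hU : S2 ≤ (F * D ^ (4 * nS) * (1 / 4) ^ N') * TT ^ 2 * (2 ^ n * (D ^ nT * 2 ^ n)) := by
    have h1 : S2 = ∑ x ∈ Bal ty, ∑ y ∈ Bal ty, ∑ π, w x π * w y π := by
      rw [hS2]
      have : ∀ π, Z π ^ 2 = ∑ x ∈ Bal ty, ∑ y ∈ Bal ty, w x π * w y π := by
        intro π
        rw [hZ, sq, sum_mul_sum]
      rw [sum_congr rfl fun π _ => this π, sum_comm]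
      exact sum_congr rfl fun x _ => sum_comm
    have h2 : ∀ x ∈ Bal ty, ∀ y ∈ Bal ty, ∑ π, w x π * w y π ≤
        (F * D ^ (4 * nS) * (1 / 4) ^ N') * TT ^ 2 * Real.exp
        (∑ t, (∑ v ∈ univ.filter (fun v => ty v = t), sg (x v) * sg (y v)) ^ 2 /
          (2 * (cnt ty t : ℝ))) := by
      intro x hx y hy
      have h3 := hUPR S (I × Bool) (fun s => Fin (M s) × Bool) a val (fun s p => x (b s p))
        (fun s p => y (b s p)) hval (hbx x hx) (hbx y hy)
      have h4 : ∑ π, w x π * w y π = ∑ π : Cf (fun s => Fin (M s) × Bool), ∏ r,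
          (tent 300 (rs val a (fun s p => x (b s (π s p))) r) *
            tent 300 (rs val a (fun s p => y (b s (π s p))) r)) := by
        refine sum_congr rfl fun π _ => ?_
        rw [hw, ← prod_mul_distrib]
      rw [h4]
      refine h3.trans ?_
      refine mul_le_mul (mul_le_mul_of_nonneg_right ?_ (sq_nonneg _))
        (Real.exp_le_exp.2 (hexp x y)) (Real.exp_pos _).le (by positivity)
      rw [prod_mul_distrib, prod_mul_distrib]
      have e1 : ∏ s, ((Fintype.card (Fin (M s) × Bool)).factorial : ℝ) = F :=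
        prod_congr rfl fun s _ => by rw [hcard]
      have e2 : ∏ s, (1 / 4 : ℝ) ^ Fintype.card (Fin (M s) × Bool) = (1 / 4) ^ N' := by
        rw [prod_pow_eq_pow_sum, hN']
        congr 1
        exact sum_congr rfl fun s _ => hcard s
      rw [e1, e2]
      refine mul_le_mul_of_nonneg_right (mul_le_mul_of_nonneg_left ?_ hF0.le) (by positivity)
      have e3 : D ^ (4 * nS) = ∏ _s : S, D ^ 4 := by
        rw [prod_const, card_univ, ← pow_mul]
      rw [e3]
      exact prod_le_prod (fun s _ => by positivity) fun s _ =>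
        pow_le_pow_left₀ (by positivity) (hND s) 4
    rw [h1]
    refine (sum_le_sum fun x hx => sum_le_sum fun y hy => h2 x hx y hy).trans ?_
    simp only [← mul_sum]
    refine mul_le_mul_of_nonneg_left ?_ (by positivity)
    have h5 : ∀ x : V → Bool, ∑ y ∈ Bal ty, Real.exp
        (∑ t, (∑ v ∈ univ.filter (fun v => ty v = t), sg (x v) * sg (y v)) ^ 2 /
          (2 * (cnt ty t : ℝ))) ≤ D ^ nT * 2 ^ n := by
      intro x
      refine (sum_le_sum_of_subset_of_nonneg (subset_univ _)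
        fun _ _ _ => (Real.exp_pos _).le).trans ((hHTY V T ty x).trans ?_)
      exact mul_le_mul_of_nonneg_right (pow_le_pow_left₀ (by positivity) hnD _) (by positivity)
    refine (sum_le_sum fun x _ => h5 x).trans ?_
    rw [sum_const, nsmul_eq_mul]
    refine mul_le_mul_of_nonneg_right ?_ (by positivity)
    have h6 : (Bal ty).card ≤ 2 ^ n := by
      refine (card_le_univ _).trans (le_of_eq ?_)
      rw [Fintype.card_fun, Fintype.card_bool, hn]
    exact_mod_cast h6
  -- number of the balanced signings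
  have hB : (2 : ℝ) ^ n ≤ D ^ nT * ((Bal ty).card : ℝ) := by
    refine (hBTY V T ty hev).trans ?_
    refine mul_le_mul ?_ (le_of_eq ?_) (Nat.cast_nonneg _) (by positivity)
    · exact pow_le_pow_left₀ (by positivity) hnD _
    · rfl
  -- Cauchy-Schwarz
  have hpos : ∀ π, Z π ≠ 0 → π ∈ G := by
    intro π hπ
    rw [hG, mem_filter]
    refine ⟨mem_univ _, ?_⟩
    obtain ⟨x, -, hx⟩ := exists_ne_zero_of_sum_ne_zero hπ
    refine ⟨x, fun r => ?_⟩
    rw [hw] at hx
    rw [prod_ne_zero_iff] at hx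
    have h1 := hx r (mem_univ _)
    by_contra hcon
    push Not at hcon
    apply h1
    unfold tent
    refine max_eq_left ?_
    rw [sub_nonpos, one_le_div (by norm_num)]
    exact hcon.le
  have hCS : S1 ^ 2 ≤ G.card * S2 := by
    have h1 : S1 = ∑ π ∈ G, Z π := by
      rw [hS1]
      refine (sum_subset (subset_univ _) ?_).symm
      intro π _ hπ
      by_contra hne
      exact hπ (hpos π hne)
    rw [h1]
    refine (sq_sum_le_card_mul_sum_sq).trans ?_
    refine mul_le_mul_of_nonneg_left ?_ (Nat.cast_nonneg _)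
    exact sum_le_sum_of_subset_of_nonneg (subset_univ _) fun _ _ _ => sq_nonneg _
  have hS10 : 0 ≤ S1 := sum_nonneg fun π _ => sum_nonneg fun x _ => hw0 x π
  -- combination
  have s1 : (2 : ℝ) ^ n * (F * TT) ≤ (D ^ nT * (4 ^ (∑ s, M s) * D ^ nS)) * S1 := by
    calc (2 : ℝ) ^ n * (F * TT) ≤ (D ^ nT * ((Bal ty).card : ℝ)) * (F * TT) :=
          mul_le_mul_of_nonneg_right hB (by positivity)
      _ = D ^ nT * (((Bal ty).card : ℝ) * (F * TT)) := by ring
      _ ≤ D ^ nT * ((4 ^ (∑ s, M s) * D ^ nS) * S1) :=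
          mul_le_mul_of_nonneg_left hL (by positivity)
      _ = _ := by ring
  have hNM : N' = 2 * ∑ s, M s := by rw [hN', mul_sum]
  have s2 : ((2 : ℝ) ^ n * (F * TT)) ^ 2 ≤ ((2 : ℝ) ^ n) ^ 2 * F * TT ^ 2 *
      (D ^ (6 * nS + 3 * nT) * G.card) := by
    calc ((2 : ℝ) ^ n * (F * TT)) ^ 2
        ≤ ((D ^ nT * (4 ^ (∑ s, M s) * D ^ nS)) * S1) ^ 2 :=
          pow_le_pow_left₀ (by positivity) s1 2
      _ = (D ^ nT * (4 ^ (∑ s, M s) * D ^ nS)) ^ 2 * S1 ^ 2 := by ring
      _ ≤ (D ^ nT * (4 ^ (∑ s, M s) * D ^ nS)) ^ 2 * (G.card * S2) :=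
          mul_le_mul_of_nonneg_left hCS (sq_nonneg _)
      _ ≤ (D ^ nT * (4 ^ (∑ s, M s) * D ^ nS)) ^ 2 * (G.card *
          ((F * D ^ (4 * nS) * (1 / 4) ^ N') * TT ^ 2 * (2 ^ n * (D ^ nT * 2 ^ n)))) := by
          gcongr
      _ = ((1 / 4 : ℝ) ^ N' * (4 ^ (∑ s, M s)) ^ 2) * (((2 : ℝ) ^ n) ^ 2 * F * TT ^ 2 *
          (D ^ (6 * nS + 3 * nT) * G.card)) := by
          have e1 : D ^ (6 * nS + 3 * nT) = D ^ nT * D ^ nT * D ^ nT * D ^ nS * D ^ nS *
              D ^ (4 * nS) := by
            rw [← pow_add, ← pow_add, ← pow_add, ← pow_add, ← pow_add]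
            congr 1; ring
          rw [e1]; ring
      _ = _ := by
          have e2 : (1 / 4 : ℝ) ^ N' * (4 ^ (∑ s, M s)) ^ 2 = 1 := by
            rw [← pow_mul, mul_comm (∑ s, M s) 2, ← hNM, ← mul_pow]
            norm_num
          rw [e2, one_mul]
  have s3 : ((2 : ℝ) ^ n) ^ 2 * F * TT ^ 2 * F ≤ ((2 : ℝ) ^ n) ^ 2 * F * TT ^ 2 *
      (D ^ (6 * nS + 3 * nT) * G.card) := by
    have e3 : ((2 : ℝ) ^ n) ^ 2 * F * TT ^ 2 * F = ((2 : ℝ) ^ n * (F * TT)) ^ 2 := by ring
    rw [e3]
    exact s2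
  exact le_of_mul_le_mul_left s3 (by positivity)

end Pool.Agent.L0h98.KC
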